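import Pool.Agent.H.MP_290264_an.Defs

namespace Pool.Agent.H.MP_290264_an

open Set Equiv Cardinal
open scoped commutatorElement

/-- the big set -/
abbrev K : Type := Set ℝ

/-- support inside `C` -/
def Fix (g : Perm K) (C : Set K) : Prop := ∀ x ∉ C, g x = x

lemma Fix.mono {g : Perm K} {C D : Set K} (h : Fix g C) (hCD : C ⊆ D) : Fix g D :=
  fun x hx => h x fun hc => hx (hCD hc)

lemma Fix.inv {g : Perm K} {C : Set K} (h : Fix g C) : Fix g⁻¹ C := fun x hx => by
  rw [Perm.inv_eq_iff_eq, h x hx]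

lemma Fix.conj {g : Perm K} {C : Set K} (h : Fix g C) (t : Perm K) :
    Fix (t * g * t⁻¹) (t '' C) := fun x hx => by
  rw [Perm.mul_apply, Perm.mul_apply, h _ fun hc => hx ⟨_, hc, by simp⟩]
  simp

lemma Fix.comm {g h : Perm K} {C D : Set K} (hg : Fix g C) (hh : Fix h D) (hd : Disjoint C D) :
    Commute g h := Perm.Disjoint.commute fun x => by
  by_cases hx : x ∈ C
  · exact Or.inr (hh x (Set.disjoint_left.1 hd hx))
  · exact Or.inl (hg x hx)

/-- permutations with countable support -/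
def G0 : Subgroup (Perm K) where
  carrier := {g | ∃ C : Set K, C.Countable ∧ Fix g C}
  one_mem' := ⟨∅, countable_empty, fun _ _ => rfl⟩
  mul_mem' := by
    rintro a b ⟨C, hC, ha⟩ ⟨D, hD, hb⟩
    exact ⟨C ∪ D, hC.union hD, fun x hx => by
      rw [Perm.mul_apply, hb x fun h => hx (Or.inr h), ha x fun h => hx (Or.inl h)]⟩
  inv_mem' := fun ⟨C, hC, ha⟩ => ⟨C, hC, ha.inv⟩

/-- the group -/
def GG : Subgroup (Perm K) := ⁅G0, G0⁆

lemma GG_le : GG ≤ G0 := Subgroup.commutator_le.2 fun _ ha _ hb =>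
  mul_mem (mul_mem (mul_mem ha hb) (inv_mem ha)) (inv_mem hb)

lemma exists_swap {C : Set K} (hC : C.Countable) {f : K → K} (hf : Function.Injective f)
    (hd : Disjoint C (f '' C)) : ∃ s ∈ G0, ∀ x ∈ C, s x = f x := by
  classical
  have hinv : Function.Involutive fun x =>
      if x ∈ C then f x else if x ∈ f '' C then Function.invFun f x else x := by
    intro x
    by_cases h1 : x ∈ C
    · have h2 : f x ∈ f '' C := mem_image_of_mem f h1
      simp only [h1, if_true, Set.disjoint_right.1 hd h2, if_false, h2,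
        Function.leftInverse_invFun hf x]
    · by_cases h2 : x ∈ f '' C
      · obtain ⟨y, hy, rfl⟩ := h2
        simp only [h1, if_false, mem_image_of_mem f hy, if_true, Function.leftInverse_invFun hf y,
          hy]
      · simp only [h1, h2, if_false]
  refine ⟨hinv.toPerm, ⟨C ∪ f '' C, hC.union (hC.image f), fun x hx => ?_⟩, fun x hx => ?_⟩
  · rw [mem_union, not_or] at hx
    simp only [Function.Involutive.coe_toPerm, hx.1, hx.2, if_false]
  · simp only [Function.Involutive.coe_toPerm, hx, if_true]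

lemma mkK : #K = 2 ^ 𝔠 := by rw [mk_set, mk_real]

/-- pairing -/
noncomputable def pr : K × K ≃ K := Classical.choice (Cardinal.eq.1 (by
  rw [mk_prod, lift_id, mul_eq_self]
  exact aleph0_le_mk K))

lemma bad_countable {C : Set K} (hC : C.Countable) :
    {i | ¬ Disjoint C ((fun x => pr (i, x)) '' C)}.Countable := by
  refine (hC.image fun c => (pr.symm c).1).mono fun i hi => ?_
  obtain ⟨c, hc, x, -, rfl⟩ := Set.not_disjoint_iff.1 hi
  exact ⟨_, hc, by simp⟩

lemma col_inj (i : K) : Function.Injective fun x => pr (i, x) := fun x y h => by simpa using h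

lemma exists_move {C : Set K} (hC : C.Countable) : ∃ s ∈ G0, Disjoint C (s '' C) := by
  obtain ⟨i, hi⟩ : ∃ i, Disjoint C ((fun x => pr (i, x)) '' C) := by
    by_contra h
    have := (bad_countable hC).mono (s₁ := univ) fun i _ hi => h ⟨i, hi⟩
    rw [← le_aleph0_iff_set_countable, mk_univ, mkK] at this
    exact (aleph0_le_continuum.trans_lt (cantor _)).not_ge this
  obtain ⟨s, hs, h⟩ := exists_swap hC (col_inj i) hi
  exact ⟨s, hs, by rwa [image_congr h]⟩

lemma approxG {a : Perm K} (ha : a ∈ G0) {D : Set K} (hD : D.Countable) :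
    ∃ b E, a * b ∈ GG ∧ E.Countable ∧ Disjoint D E ∧ Fix b E := by
  obtain ⟨C, hC, haC⟩ := id ha
  obtain ⟨s, hs, h⟩ := exists_move (hC.union hD)
  refine ⟨s * a⁻¹ * s⁻¹, s '' C, ?_, hC.image s,
    h.mono subset_union_right (image_mono subset_union_left), haC.inv.conj s⟩
  have := Subgroup.commutator_mem_commutator ha hs
  rwa [commutatorElement_def, mul_assoc, mul_assoc, ← mul_assoc s] at this

lemma agreeG {a : Perm K} (ha : a ∈ G0) {D : Set K} (hD : D.Countable) :
    ∃ t ∈ GG, ∀ x ∈ D, t x = a x := by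
  obtain ⟨b, E, h1, -, h2, h3⟩ := approxG ha hD
  exact ⟨_, h1, fun x hx => by rw [Perm.mul_apply, h3 x (Set.disjoint_left.1 h2 hx)]⟩

lemma perfect {a b : Perm K} (ha : a ∈ G0) (hb : b ∈ G0) :
    ∃ a' ∈ GG, ∃ b' ∈ GG, ⁅a', b'⁆ = ⁅a, b⁆ := by
  obtain ⟨C, hC, haC⟩ := id ha
  obtain ⟨D, hD, hbD⟩ := id hb
  obtain ⟨u, E, h1, hE, h2, h3⟩ := approxG ha (hC.union hD)
  obtain ⟨v, F, h4, -, h5, h6⟩ := approxG hb ((hC.union hD).union hE)
  refine ⟨_, h1, _, h4, ?_⟩
  have c1 : Commute b u := hbD.comm h3 (h2.mono_left subset_union_right)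
  have c2 : Commute a v := haC.comm h6 (h5.mono_left (subset_union_left.trans subset_union_left))
  have c3 : Commute u v := h3.comm h6 (h5.mono_left subset_union_right)
  have c4 : Commute u (b * v) := c1.symm.mul_right c3
  have e1 : a * u * (b * v) * (a * u)⁻¹ = a * (b * v) * a⁻¹ := by
    rw [mul_assoc a, c4.eq]; group
  have e2 : a * (b * v) * a⁻¹ = a * b * a⁻¹ * v := by
    rw [mul_assoc _ _ v, c2.inv_left.eq]; group
  rw [commutatorElement_def, e1, e2, commutatorElement_def]; group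

lemma small_comm {H : Type} [Group H] (φ : GG →* H) (hH : #(range φ) ≤ 𝔠) (g h : GG) :
    φ ⁅g, h⁆ = 1 := by
  classical
  obtain ⟨C1, hC1, hg⟩ := GG_le g.2
  obtain ⟨C2, hC2, hh⟩ := GG_le h.2
  have hC := hC1.union hC2
  replace hg := hg.mono (subset_union_left (t := C2))
  replace hh := hh.mono (subset_union_right (s := C1))
  set C := C1 ∪ C2
  have : ∀ i : {i | Disjoint C ((fun x => pr (i, x)) '' C)}, ∃ t : GG, ∀ x ∈ C,
      t.1 x = pr (i, x) := fun i => by
    obtain ⟨s, hs, h1⟩ := exists_swap hC (col_inj i) i.2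
    obtain ⟨t, ht, h2⟩ := agreeG hs hC
    exact ⟨⟨t, ht⟩, fun x hx => (h2 x hx).trans (h1 x hx)⟩
  choose t ht using this
  obtain ⟨i, j, he, hij⟩ : ∃ i j, φ (t i * g * (t i)⁻¹) = φ (t j * g * (t j)⁻¹) ∧ i ≠ j := by
    by_contra hcon
    push Not at hcon
    have h1 := mk_le_of_injective (f := fun i => (⟨_, mem_range_self (t i * g * (t i)⁻¹)⟩ : range φ))
      fun i j e => hcon i j (congrArg Subtype.val e)
    have h2 := (le_aleph0_iff_set_countable.2 (bad_countable hC)).trans aleph0_le_continuum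
    have h3 := mk_sum_compl {i | Disjoint C ((fun x => pr (i, x)) '' C)}
    have h4 : #K ≤ 𝔠 + 𝔠 := h3 ▸ add_le_add (h1.trans hH) h2
    rw [continuum_add_self, mkK] at h4
    exact (cantor _).not_ge h4
  have hc : Commute (t j * g * (t j)⁻¹) (t i * h * (t i)⁻¹) := by
    refine Subtype.ext ((hg.conj (t j).1).comm (hh.conj (t i).1) ?_).eq
    rw [image_congr (ht j), image_congr (ht i), Set.disjoint_left]
    rintro _ ⟨x, -, rfl⟩ ⟨y, -, e⟩
    exact hij (Subtype.ext (by simpa using (congrArg Prod.fst (pr.injective e))))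
  have h5 := hc.map φ
  rw [← he, ← commutatorElement_eq_one_iff_commute, ← map_commutatorElement,
    ← conjugate_commutatorElement, map_mul, map_mul, map_inv, mul_inv_eq_one,
    _root_.mul_eq_left] at h5
  exact h5

lemma small_triv {H : Type} [Group H] (φ : GG →* H) (hH : #(range φ) ≤ 𝔠) (g : GG) : φ g = 1 := by
  obtain ⟨g, hg⟩ := g
  induction hg using Subgroup.closure_induction with
  | mem x hx =>
    obtain ⟨a, ha, b, hb, rfl⟩ := hx
    obtain ⟨a', ha', b', hb', e⟩ := perfect ha hb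
    rw [← small_comm φ hH ⟨a', ha'⟩ ⟨b', hb'⟩]
    exact congrArg φ (Subtype.ext e.symm)
  | one => exact map_one φ
  | mul x y hx hy h1 h2 => exact (map_mul φ ⟨x, hx⟩ ⟨y, hy⟩).trans (by rw [h1, h2, one_mul])
  | inv x hx h1 => exact (map_inv φ ⟨x, hx⟩).trans (by rw [h1, inv_one])

lemma mk_metric (X : Type) [MetricSpace X] [CompactSpace X] : #X ≤ 𝔠 := by
  rcases isEmpty_or_nonempty X with h | h
  · simp
  obtain ⟨f, -, hf⟩ := exists_nat_nat_continuous_surjective_of_completeSpace X
  simpa using mk_le_of_surjective hf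

lemma act_triv (X : Type) [MetricSpace X] [CompactSpace X] [MulAction GG X]
    [ContinuousConstSMul GG X] (g : GG) (x : X) : g • x = x := by
  haveI : Nonempty X := ⟨x⟩
  have h : #(range (MulAction.toPermHom GG X)) ≤ 𝔠 := by
    have h1 := mk_le_of_injective (f := fun σ : range (MulAction.toPermHom GG X) =>
      fun n : ℕ => σ.1 (TopologicalSpace.denseSeq X n)) (by
        rintro ⟨_, a, rfl⟩ ⟨_, b, rfl⟩ e
        refine Subtype.ext (Perm.ext (congrFun ((TopologicalSpace.denseRange_denseSeq X).equalizer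
          (continuous_const_smul a) (continuous_const_smul b) e))))
    refine h1.trans ?_
    rw [← power_def, mk_nat, ← continuum_power_aleph0]
    exact power_le_power_right (mk_metric X)
  exact congrArg (fun σ : Perm X => σ x) (small_triv _ h g)

lemma rec_imp (R : Set GG) (h : MeasRec R) : TopRec R := by
  intro X _ _ _ _ _ U _ hU
  letI : MulAction GG Unit :=
    { smul := fun _ x => x, one_smul := fun _ => rfl, mul_smul := fun _ _ _ => rfl }
  obtain ⟨g, hg, h1, -⟩ := h Unit (MeasureTheory.Measure.dirac ()) (fun g => by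
    convert MeasureTheory.MeasurePreserving.id (MeasureTheory.Measure.dirac ())) univ
    MeasurableSet.univ (by simp)
  obtain ⟨x, hx⟩ := hU
  exact ⟨g, hg, h1, x, hx, by simpa [act_triv] using hx⟩

/-- three infinite pieces -/
abbrev Y : Type := ℕ ⊕ (ℕ ⊕ ℕ)

/-- the piece of a point -/
def part : Y → Fin 3 := Sum.elim (fun _ => 0) (Sum.elim (fun _ => 1) fun _ => 2)

lemma exists_rho : ∃ ρ : GG → Y, ∀ π : Perm Y, ∃ a : GG, ∀ g, ρ (a * g) = π (ρ g) := by
  classical
  obtain ⟨ι⟩ : Nonempty (Y ↪ K) := by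
    rw [← Cardinal.le_def]
    exact mk_le_aleph0.trans (aleph0_le_mk K)
  let S : Subgroup GG :=
    { carrier := {a | a.1 '' range ι = range ι}
      one_mem' := by simp
      mul_mem' := fun {a b} ha hb => by
        simp only [mem_setOf_eq] at *
        rw [Subgroup.coe_mul, Perm.coe_mul, image_comp, hb, ha]
      inv_mem' := fun {a} ha => by
        simp only [mem_setOf_eq] at *
        conv_lhs => rw [← ha]
        simp [image_image] }
  let r : GG → GG := fun g => (Quotient.mk (QuotientGroup.rightRel S) g).out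
  have hr : ∀ g, g * (r g)⁻¹ ∈ S := fun g =>
    QuotientGroup.rightRel_apply.1 (Quotient.mk_out (s := QuotientGroup.rightRel S) g)
  refine ⟨fun g => Function.invFun ι ((g * (r g)⁻¹).1 (ι (Sum.inl 0))), fun π => ?_⟩
  have h0 : π.extendDomain (Equiv.ofInjective ι ι.injective) ∈ G0 :=
    ⟨range ι, countable_range ι, fun x hx => Perm.extendDomain_apply_not_subtype _ _ hx⟩
  obtain ⟨t, ht, h1⟩ := agreeG h0 (countable_range ι)
  have h2 : ∀ y, t (ι y) = ι (π y) := fun y =>
    (h1 _ (mem_range_self y)).trans (Perm.extendDomain_apply_image π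
      (Equiv.ofInjective ι ι.injective) y)
  have h3 : (⟨t, ht⟩ : GG) ∈ S := by
    show t '' range ι = range ι
    rw [← range_comp, show t ∘ ι = ι ∘ π from funext h2, range_comp, π.surjective.range_eq,
      image_univ]
  refine ⟨⟨t, ht⟩, fun g => ?_⟩
  have h4 : r (⟨t, ht⟩ * g) = r g := congrArg Quotient.out (Quotient.sound
    (QuotientGroup.rightRel_apply.2 (by simpa using inv_mem h3)))
  obtain ⟨y, hy⟩ : (g * (r g)⁻¹).1 (ι (Sum.inl 0)) ∈ range ι :=
    (show _ '' range ι = range ι from hr g) ▸ mem_image_of_mem _ (mem_range_self _)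
  simp only [h4, mul_assoc]
  rw [Subgroup.coe_mul, Perm.mul_apply, ← hy, h2, Function.leftInverse_invFun ι.injective,
    Function.leftInverse_invFun ι.injective]

lemma not_amenable : ¬ Amenable GG := by
  rintro ⟨m, h0, -, hm⟩
  have h1 : m 1 = 1 := h0 1 fun _ => rfl
  obtain ⟨ρ, hρ⟩ := exists_rho
  let L : (Fin 3 → ℝ) → Linf GG := fun f => ⟨fun g => f (part (ρ g)), memℓp_infty
    ((finite_range fun i => ‖f i‖).bddAbove.mono (by rintro _ ⟨g, rfl⟩; exact ⟨_, rfl⟩))⟩
  have key : ∀ (π : Perm Y) (f f' : Fin 3 → ℝ), (∀ y, f' (part y) = f (part (π y))) →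
      m (L f') = m (L f) := fun π f f' h => by
    obtain ⟨a, ha⟩ := hρ π
    exact hm a _ _ fun g => (h _).trans (by simp only [L, ha])
  have hadd : ∀ f f', m (L (f + f')) = m (L f) + m (L f') := fun f f' => map_add m (L f) (L f')
  have e1 := key (Equiv.sumCongr (Equiv.refl ℕ) (Equiv.sumComm ℕ ℕ)) ![0, 0, 1] ![0, 1, 0]
    (by rintro (y | y | y) <;> rfl)
  have e2 := key ((Equiv.sumAssoc ℕ ℕ ℕ).symm.trans
    ((Equiv.sumCongr (Equiv.sumComm ℕ ℕ) (Equiv.refl ℕ)).trans (Equiv.sumAssoc ℕ ℕ ℕ)))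
    ![0, 1, 0] ![1, 0, 0] (by rintro (y | y | y) <;> rfl)
  have e3 := key ((Equiv.sumAssoc ℕ ℕ ℕ).symm.trans
    (Equiv.sumCongr Equiv.natSumNatEquivNat Equiv.natSumNatEquivNat.symm))
    ![1, 0, 0] (![1, 0, 0] + ![0, 1, 0]) (by
      rintro (y | y | y)
      · simp [part]
      · simp [part]
      · simp only [Equiv.trans_apply, Equiv.sumAssoc_symm_apply_inr_inr, Equiv.sumCongr_apply,
          Sum.map_inr]
        rcases Equiv.natSumNatEquivNat.symm y with z | z <;> simp [part])
  have e4 : L (![1, 0, 0] + ![0, 1, 0] + ![0, 0, 1]) = 1 := by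
    ext g
    show (![1, 0, 0] + ![0, 1, 0] + ![0, 0, 1] : Fin 3 → ℝ) (part (ρ g)) = 1
    generalize part (ρ g) = i
    fin_cases i <;> simp
  rw [← e4, hadd, hadd] at h1
  rw [hadd] at e3
  linarith

end Pool.Agent.H.MP_290264_an
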