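import Mathlib

namespace Pool.Agent.H.MP_290264_an

open MeasureTheory ENNReal

/-- bounded real functions -/
abbrev Linf (G : Type) := lp (fun _ : G => ℝ) ∞

/-- a left-invariant mean on a space `V` of real functions on `G`, with values `ev` -/
def HasMean {G V : Type} [Group G] [AddCommGroup V] [Module ℝ V] (ev : V → G → ℝ) : Prop :=
  ∃ m : V →ₗ[ℝ] ℝ, (∀ f, (∀ x, ev f x = 1) → m f = 1) ∧ (∀ f, (∀ x, 0 ≤ ev f x) → 0 ≤ m f) ∧
    ∀ (g : G) (f f' : V), (∀ x, ev f' x = ev f (g * x)) → m f' = m f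

variable (G : Type) [Group G]

/-- `ℓ∞(G)` carries a left-invariant mean -/
def Amenable : Prop := HasMean fun (f : Linf G) (x : G) => f x

variable {G}

/-- set of topological recurrence -/
def TopRec (R : Set G) : Prop :=
  ∀ (X : Type) [MetricSpace X] [CompactSpace X] [MulAction G X] [ContinuousConstSMul G X]
    [MulAction.IsMinimal G X] (U : Set X), IsOpen U → U.Nonempty →
    ∃ g ∈ R, g ≠ 1 ∧ (U ∩ (fun x => g • x) ⁻¹' U).Nonempty

/-- set of measurable recurrence -/
def MeasRec (R : Set G) : Prop :=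
  ∀ (X : Type) [MeasurableSpace X] (μ : Measure X) [IsProbabilityMeasure μ] [MulAction G X],
    (∀ g : G, MeasurePreserving (fun x => g • x) μ μ) → ∀ A : Set X, MeasurableSet A → 0 < μ A →
    ∃ g ∈ R, g ≠ 1 ∧ 0 < μ (A ∩ (fun x => g • x) ⁻¹' A)

end Pool.Agent.H.MP_290264_an
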